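import Pool.Agent.P.MP_8eee4e_co.Ex.All

set_option autoImplicit false

namespace Pool.Agent.Results.MP_8eee4e_co.ExactValues

open Pool.Agent.P.MP_8eee4e_co.Ex

/-- For all large `N`, `f (N² ± 2) = N ± 1 / (N ± 1)`, attained by a tiling of the unit square;
squares may be placed in any orientation. -/
theorem result :
    ∃ N0 : ℕ, ∀ N : ℕ, N0 ≤ N → ∀ ε : ℤ, (ε = 1 ∨ ε = -1) → ∀ r : ℕ, (r : ℤ) = N ^ 2 + 2 * ε →
      f r = N + ε / (N + ε) ∧ ∃ S : Fin r → Square, Tiles S ∧ ∑ i, (S i).a = f r :=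
  final got_RED got_TIL got_OM got_DAT got_B got_C got_CNT got_FM got_FP

end Pool.Agent.Results.MP_8eee4e_co.ExactValues
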