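import Pool.Agent.P.MP_8eee4e_co.Config

namespace Pool.Agent.Results.MP_8eee4e_co.Seventeen

/-- A square in the plane, in any position and orientation: one corner `(x, y)`, a unit vector
`(c, s)` along one side, and the side length `a ≥ 0`. -/
structure Square where
  x : ℝ
  y : ℝ
  c : ℝ
  s : ℝ
  a : ℝ
  unit : c ^ 2 + s ^ 2 = 1
  nonneg : 0 ≤ a

/-- The closed square: all points `(x, y) + α (c, s) + β (-s, c)` with `α, β ∈ [0, a]`. -/
def Square.set (S : Square) : Set (ℝ × ℝ) :=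
  {p | ∃ α ∈ Set.Icc 0 S.a, ∃ β ∈ Set.Icc 0 S.a,
    p = (S.x + α * S.c - β * S.s, S.y + α * S.s + β * S.c)}

/-- The closed unit square. -/
def U : Set (ℝ × ℝ) := Set.Icc 0 1 ×ˢ Set.Icc 0 1

/-- A configuration: squares inside `U` with pairwise disjoint interiors. -/
def IsConfig {r : ℕ} (S : Fin r → Square) : Prop :=
  (∀ i, (S i).set ⊆ U) ∧ Pairwise fun i j => Disjoint (interior (S i).set) (interior (S j).set)

/-- The family tiles `U`. -/
def Tiles {r : ℕ} (S : Fin r → Square) : Prop :=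
  IsConfig S ∧ ⋃ i, (S i).set = U

/-- The family tiles `U`, or does so after one more square is added. -/
def AlmostTiles {r : ℕ} (S : Fin r → Square) : Prop :=
  Tiles S ∨ ∃ T : Square, Tiles (Fin.snoc S T : Fin (r + 1) → Square)

/-- The largest sum of side lengths of a configuration of `r` squares. -/
noncomputable def f (r : ℕ) : ℝ :=
  sSup {t | ∃ S : Fin r → Square, IsConfig S ∧ ∑ i, (S i).a = t}

open Pool.Agent.P.MP_8eee4e_co in
theorem result :
    4.000129 < f 17 ∧
    (∀ S : Fin 17 → Square, AlmostTiles S → ∑ i, (S i).a ≤ 4) ∧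
    ¬ ∀ r : ℕ, 1 ≤ r →
      ∃ S : Fin r → Square, IsConfig S ∧ ∑ i, (S i).a = f r ∧ AlmostTiles S := by
  have h1 : ∃ S : Fin 17 → Square, IsConfig S ∧ 4.000129 < ∑ i, (S i).a := by
    refine ⟨fun i => ⟨(dat i).1, (dat i).2.1, (dat i).2.2.1, (dat i).2.2.2.1, (dat i).2.2.2.2,
      by exact_mod_cast dat_unit i, by exact_mod_cast dat_nonneg i⟩, ⟨rsq_sub, rsq_disjoint⟩, ?_⟩
    have h := (Rat.cast_lt (K := ℝ)).2 dat_sum
    push_cast at h
    simp only
    linarith
  have h2 : 4.000129 < f 17 := by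
    obtain ⟨S, hS, h⟩ := h1
    refine h.trans_le (le_csSup ⟨34, ?_⟩ ⟨S, hS, rfl⟩)
    rintro t ⟨T, hT, rfl⟩
    have := Finset.sum_le_sum fun i (_ : i ∈ Finset.univ) =>
      side_le (T i).unit (T i).nonneg (hT.1 i)
    simp only [Finset.sum_const, Finset.card_univ, Fintype.card_fin, nsmul_eq_mul] at this
    push_cast at this
    linarith
  have key : ∀ {n : ℕ} (T : Fin n → Square), Tiles T → ∀ e : Fin 17 → Fin n,
      Function.Injective e → ∑ i, (T (e i)).a ≤ 4 := by
    intro n T hT e he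
    refine tiling_bound (fun i => (T i).x) (fun i => (T i).y) (fun i => (T i).c) (fun i => (T i).s)
      (fun i => (T i).a) (fun i => (T i).unit) (fun i => (T i).nonneg) hT.1.1 hT.1.2 ?_ e he
    intro p hp
    have hp' : p ∈ ⋃ i, (T i).set := by rw [hT.2]; exact hp
    exact Set.mem_iUnion.1 hp'
  have h3 : ∀ S : Fin 17 → Square, AlmostTiles S → ∑ i, (S i).a ≤ 4 := by
    rintro S (hS | ⟨T, hT⟩)
    · exact key S hS id Function.injective_id
    · simpa using key _ hT Fin.castSucc (Fin.castSucc_injective _)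
  refine ⟨h2, h3, fun h => ?_⟩
  obtain ⟨S, -, hS, hT⟩ := h 17 (by norm_num)
  have := h3 S hT
  linarith

end Pool.Agent.Results.MP_8eee4e_co.Seventeen
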